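import Mathlib
import Pool.Agent.Helpers.PosetDef

set_option autoImplicit false

namespace Pool.Agent.Results.MP_b47165_lc.MonotoneDefinable

open FirstOrder

/-- There is an infinite partial order `P` such that every order-preserving self-map of `P` is
first-order definable with parameters in the structure `(P, ≤)`. -/
theorem result : ∃ (P : Type) (_ : PartialOrder P), Infinite P ∧
    ∀ f : P → P, (∀ x y, x ≤ y → f x ≤ f y) →
      ∃ (k : ℕ) (φ : Language.order.Formula (Fin 2 ⊕ Fin k)) (a : Fin k → P),
        ∀ x y : P, f x = y ↔
          @Language.Formula.Realize Language.order P (Language.orderStructure P)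
            (Fin 2 ⊕ Fin k) φ (Sum.elim ![x, y] a) :=
  Pool.Agent.PosetDef.main

end Pool.Agent.Results.MP_b47165_lc.MonotoneDefinable
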